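import Mathlib
import Pool.Agent.R204.DBa

/-!
# MP_db21b4_co

For every orientation of the bowtie in which exactly three of the four edges at the center point
toward the center (or exactly three point away from it), and for every odd `n ≥ 5`,
`D(n, B⃗) > 2 ^ ex(n, B)`.  The graph is `K_{1,a,a}` (`n = 2a+1`).
-/

namespace Pool.Agent.Results.MP_db21b4_co.OddCounterexample

open SimpleGraph Finset Pool.Agent.R204.DB

/-- `D` is an orientation of the simple graph `G`: it is antisymmetric and every edge of `G`
(and no other pair) gets exactly one direction; `D u v` means that the edge points from `u`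
to `v`. -/
def IsOrientation {V : Type*} (G : SimpleGraph V) (D : V → V → Prop) : Prop :=
  (∀ u v, D u v → ¬ D v u) ∧ ∀ u v, G.Adj u v ↔ (D u v ∨ D v u)

/-- The oriented graph `D` contains a (not necessarily induced) copy of the oriented graph
`H`. -/
def ContainsCopy {V W : Type*} (D : V → V → Prop) (H : W → W → Prop) : Prop :=
  ∃ f : W ↪ V, ∀ u v, H u v → D (f u) (f v)

/-- `D(G, H)`: the number of `H`-free orientations of `G`. -/
noncomputable def countFree {V : Type*} (G : SimpleGraph V) (H : Fin 5 → Fin 5 → Prop) : ℕ :=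
  Nat.card {D : V → V → Prop // IsOrientation G D ∧ ¬ ContainsCopy D H}

/-- `D(n, H)`: the maximum of `D(G, H)` over the graphs `G` on `n` vertices. -/
noncomputable def maxFree (n : ℕ) (H : Fin 5 → Fin 5 → Prop) : ℕ :=
  sSup (Set.range fun G : SimpleGraph (Fin n) => countFree G H)

/-! ### The graph `K_{1,a,a}` -/

/-- `K_{1,a,a}`. -/
def K (a : ℕ) : SimpleGraph (Option (Bool × Fin a)) where
  Adj u v := match u, v with
    | none, none => False
    | none, some _ => True
    | some _, none => True
    | some p, some q => p.1 ≠ q.1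
  symm := ⟨by
    rintro (_ | ⟨p, i⟩) (_ | ⟨q, j⟩) h
    · exact h
    · trivial
    · trivial
    · exact Ne.symm h⟩
  loopless := ⟨by
    rintro (_ | ⟨p, i⟩) h
    · exact h
    · exact h rfl⟩

/-- The orientation with data `s` (edges at the hub) and `t` (edges between the parts). -/
def ori {a : ℕ} (s : Bool × Fin a → Bool) (t : Fin a → Fin a → Bool) :
    Option (Bool × Fin a) → Option (Bool × Fin a) → Prop
  | none, none => False
  | none, some p => s p = false
  | some p, none => s p = true
  | some (false, i), some (true, j) => t i j = true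
  | some (true, j), some (false, i) => t i j = false
  | some (false, _), some (false, _) => False
  | some (true, _), some (true, _) => False

lemma ori_isOrientation {a : ℕ} (s : Bool × Fin a → Bool) (t : Fin a → Fin a → Bool) :
    IsOrientation (K a) (ori s t) := by
  constructor
  · rintro (_ | ⟨p, i⟩) (_ | ⟨q, j⟩) h
    · exact h.elim
    · change s (q, j) = false at h
      change ¬ (s (q, j) = true)
      simp [h]
    · change s (p, i) = true at h
      change ¬ (s (p, i) = false)
      simp [h]
    · cases p <;> cases q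
      · exact h.elim
      · change t i j = true at h
        change ¬ (t i j = false)
        simp [h]
      · change t j i = false at h
        change ¬ (t j i = true)
        simp [h]
      · exact h.elim
  · rintro (_ | ⟨p, i⟩) (_ | ⟨q, j⟩)
    · simp [K, ori]
    · simp [K, ori]
    · simp [K, ori]
    · cases p <;> cases q <;> simp [K, ori]

lemma ori_injective {a : ℕ} {s s' : Bool × Fin a → Bool} {t t' : Fin a → Fin a → Bool}
    (h : ori s t = ori s' t') : s = s' ∧ t = t' := by
  constructor
  · funext p
    have h1 : (s p = true) = (s' p = true) := congrFun (congrFun h (some p)) none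
    exact Bool.eq_iff_iff.mpr (iff_of_eq h1)
  · funext i j
    have h1 : (t i j = true) = (t' i j = true) :=
      congrFun (congrFun h (some (false, i))) (some (true, j))
    exact Bool.eq_iff_iff.mpr (iff_of_eq h1)

/-- A triangle of `K_{1,a,a}` contains the hub. -/
lemma triangle_hub {a : ℕ} {x y z : Option (Bool × Fin a)} (hxy : (K a).Adj x y)
    (hyz : (K a).Adj y z) (hxz : (K a).Adj x z) : x = none ∨ y = none ∨ z = none := by
  rcases x with _ | ⟨p, i⟩
  · exact Or.inl rfl
  rcases y with _ | ⟨q, j⟩
  · exact Or.inr (Or.inl rfl)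
  rcases z with _ | ⟨r, k⟩
  · exact Or.inr (Or.inr rfl)
  exfalso
  change p ≠ q at hxy
  change q ≠ r at hyz
  change p ≠ r at hxz
  cases p <;> cases q <;> cases r <;> simp_all

/-- The partner of a non-central vertex of the bowtie. -/
def mate : Fin 5 → Fin 5 := ![0, 2, 1, 4, 3]

lemma adj_zero {u : Fin 5} (hu : u ≠ 0) : bowtie.Adj 0 u := by
  rw [bowtie_adj]
  exact ⟨hu.symm, Or.inl (Or.inl rfl)⟩

lemma adj_mate {u : Fin 5} (hu : u ≠ 0) : bowtie.Adj u (mate u) := by
  rw [bowtie_adj]
  fin_cases u
  · exact absurd rfl hu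
  · exact ⟨by decide, by decide⟩
  · exact ⟨by decide, by decide⟩
  · exact ⟨by decide, by decide⟩
  · exact ⟨by decide, by decide⟩

lemma mate_ne_zero {u : Fin 5} (hu : u ≠ 0) : mate u ≠ 0 := by
  fin_cases u
  · exact absurd rfl hu
  all_goals decide

/-- Structure of a copy of an orientation of the bowtie in an orientation of `K_{1,a,a}`. -/
lemma copy_structure {a : ℕ} {H : Fin 5 → Fin 5 → Prop} (hH : IsOrientation bowtie H)
    {D : Option (Bool × Fin a) → Option (Bool × Fin a) → Prop} (hD : IsOrientation (K a) D)
    (f : Fin 5 ↪ Option (Bool × Fin a)) (hf : ∀ u v, H u v → D (f u) (f v)) :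
    f 0 = none ∧ ∃ p : Fin 5 → Bool × Fin a, (∀ u, u ≠ 0 → f u = some (p u)) ∧
      ∀ u, u ≠ 0 → (p u).1 ≠ (p (mate u)).1 := by
  have hadj : ∀ u v, bowtie.Adj u v → (K a).Adj (f u) (f v) := by
    intro u v huv
    rw [hD.2]
    rcases (hH.2 u v).mp huv with h | h
    · exact Or.inl (hf _ _ h)
    · exact Or.inr (hf _ _ h)
  have h0 : f 0 = none := by
    by_contra hne
    have h1 := triangle_hub (hadj 0 1 (adj_zero (by decide)))
      (hadj 1 2 (adj_mate (u := 1) (by decide))) (hadj 0 2 (adj_zero (by decide)))
    have h2 := triangle_hub (hadj 0 3 (adj_zero (by decide)))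
      (hadj 3 4 (adj_mate (u := 3) (by decide))) (hadj 0 4 (adj_zero (by decide)))
    have hinj : ∀ u v : Fin 5, u ≠ v → f u = none → f v = none → False := by
      intro u v huv h h'
      exact huv (f.injective (h.trans h'.symm))
    rcases h1 with h1 | h1 | h1
    · exact hne h1
    all_goals
      rcases h2 with h2 | h2 | h2
      · exact hne h2
      all_goals exact hinj _ _ (by decide) h1 h2
  have hsome : ∀ u, u ≠ 0 → ∃ q, f u = some q := by
    intro u hu
    rcases hfu : f u with _ | q
    · exact absurd (f.injective (hfu.trans h0.symm)) hu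
    · exact ⟨q, rfl⟩
  obtain ⟨q0, -⟩ := hsome 1 (by decide)
  refine ⟨h0, fun u => (f u).getD q0, ?_, ?_⟩
  · intro u hu
    obtain ⟨q, hq⟩ := hsome u hu
    simp [hq]
  · intro u hu
    obtain ⟨q, hq⟩ := hsome u hu
    obtain ⟨r, hr⟩ := hsome (mate u) (mate_ne_zero hu)
    have h := hadj u (mate u) (adj_mate hu)
    rw [hq, hr] at h
    simp only [hq, hr, Option.getD_some]
    exact h

/-- The exceptional edge at the center. -/
lemma exists_out {H : Fin 5 → Fin 5 → Prop} (hH : IsOrientation bowtie H)
    (h3 : Set.ncard {u | H u 0} = 3) :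
    ∃ w, w ≠ 0 ∧ H 0 w ∧ ∀ u, H 0 u → u = w := by
  classical
  have hnn : ¬ H 0 0 := fun h => hH.1 0 0 h h
  set S : Finset (Fin 5) := Finset.univ.filter (fun u => H u 0) with hS
  have hSc : S.card = 3 := by
    rw [← h3, Set.ncard_eq_toFinset_card']
    congr 1
    ext u
    simp [hS]
  set T : Finset (Fin 5) := Finset.univ.filter (fun u => H 0 u) with hT
  have hdisj : Disjoint S T := by
    rw [Finset.disjoint_left]
    intro u hu hu'
    simp only [hS, hT, Finset.mem_filter, Finset.mem_univ, true_and] at hu hu'
    exact hH.1 _ _ hu hu'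
  have hunion : S ∪ T = Finset.univ.erase 0 := by
    ext u
    simp only [hS, hT, Finset.mem_union, Finset.mem_filter, Finset.mem_univ, true_and,
      Finset.mem_erase, and_true]
    constructor
    · rintro (h | h) rfl
      · exact hnn h
      · exact hnn h
    · intro hu
      exact ((hH.2 0 u).mp (adj_zero hu)).symm
  have hcard : S.card + T.card = 4 := by
    rw [← Finset.card_union_of_disjoint hdisj, hunion]
    rfl
  have hT1 : T.card = 1 := by omega
  obtain ⟨w, hw⟩ := Finset.card_eq_one.mp hT1
  have hmem : ∀ u, H 0 u ↔ u = w := by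
    intro u
    have : u ∈ T ↔ u ∈ ({w} : Finset (Fin 5)) := by rw [hw]
    simpa [hT] using this
  refine ⟨w, ?_, (hmem w).mpr rfl, fun u hu => (hmem u).mp hu⟩
  rintro rfl
  exact hnn ((hmem 0).mpr rfl)

/-- If all the edges from the hub to one of the parts point away from the hub, there is no
copy. -/
lemma free_of_part {a : ℕ} {H : Fin 5 → Fin 5 → Prop} (hH : IsOrientation bowtie H)
    (h3 : Set.ncard {u | H u 0} = 3) (s : Bool × Fin a → Bool) (t : Fin a → Fin a → Bool)
    (b : Bool) (hs : ∀ i, s (b, i) = false) : ¬ ContainsCopy (ori s t) H := by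
  rintro ⟨f, hf⟩
  obtain ⟨h0, p, hp, hpm⟩ := copy_structure hH (ori_isOrientation s t) f hf
  obtain ⟨w, hw0, hw, huniq⟩ := exists_out hH h3
  have hout : ∀ u, u ≠ 0 → (p u).1 = b → u = w := by
    intro u hu hpu
    apply huniq
    rcases (hH.2 0 u).mp (adj_zero hu) with h | h
    · exact h
    · exfalso
      have h' := hf _ _ h
      rw [h0, hp u hu] at h'
      change s (p u) = true at h'
      have : s (p u) = false := by
        have : p u = (b, (p u).2) := Prod.ext hpu rfl
        rw [this]
        exact hs _
      simp [this] at h'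
  have h12 : ∃ u, (u = 1 ∨ u = 2) ∧ (p u).1 = b := by
    have h := hpm 1 (by decide)
    change (p 1).1 ≠ (p 2).1 at h
    by_cases h1 : (p 1).1 = b
    · exact ⟨1, Or.inl rfl, h1⟩
    · refine ⟨2, Or.inr rfl, ?_⟩
      revert h h1
      generalize (p 1).1 = x
      generalize (p 2).1 = y
      intro h h1
      cases x <;> cases y <;> cases b <;> simp_all
  have h34 : ∃ u, (u = 3 ∨ u = 4) ∧ (p u).1 = b := by
    have h := hpm 3 (by decide)
    change (p 3).1 ≠ (p 4).1 at h
    by_cases h1 : (p 3).1 = b
    · exact ⟨3, Or.inl rfl, h1⟩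
    · refine ⟨4, Or.inr rfl, ?_⟩
      revert h h1
      generalize (p 3).1 = x
      generalize (p 4).1 = y
      intro h h1
      cases x <;> cases y <;> cases b <;> simp_all
  obtain ⟨u, hu, hub⟩ := h12
  obtain ⟨v, hv, hvb⟩ := h34
  have hu' := hout u (by rcases hu with rfl | rfl <;> decide) hub
  have hv' := hout v (by rcases hv with rfl | rfl <;> decide) hvb
  have : u = v := hu'.trans hv'.symm
  rcases hu with rfl | rfl <;> rcases hv with rfl | rfl <;> revert this <;> decide

/-- If all the edges at the hub point toward the hub, there is no copy. -/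
lemma free_of_all {a : ℕ} {H : Fin 5 → Fin 5 → Prop} (hH : IsOrientation bowtie H)
    (h3 : Set.ncard {u | H u 0} = 3) (s : Bool × Fin a → Bool) (t : Fin a → Fin a → Bool)
    (hs : ∀ q, s q = true) : ¬ ContainsCopy (ori s t) H := by
  rintro ⟨f, hf⟩
  obtain ⟨h0, p, hp, hpm⟩ := copy_structure hH (ori_isOrientation s t) f hf
  obtain ⟨w, hw0, hw, huniq⟩ := exists_out hH h3
  have h' := hf _ _ hw
  rw [h0, hp w hw0] at h'
  change s (p w) = false at h'
  simp [hs] at h'

/-- One more copy-free orientation. -/
lemma exists_extra {a : ℕ} {H : Fin 5 → Fin 5 → Prop} (hH : IsOrientation bowtie H)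
    (h3 : Set.ncard {u | H u 0} = 3) (i0 : Fin a) (s : Bool × Fin a → Bool)
    (hs : ∀ q, s q = false → q = (false, i0)) :
    ∃ t : Fin a → Fin a → Bool, ¬ ContainsCopy (ori s t) H := by
  classical
  obtain ⟨w, hw0, hw, huniq⟩ := exists_out hH h3
  refine ⟨fun _ _ => decide (H (mate w) w), ?_⟩
  rintro ⟨f, hf⟩
  obtain ⟨h0, p, hp, hpm⟩ := copy_structure hH (ori_isOrientation s _) f hf
  have h' := hf _ _ hw
  rw [h0, hp w hw0] at h'
  change s (p w) = false at h'
  have hpw := hs _ h'
  have hm := hpm w hw0
  rw [hpw] at hm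
  have hm1 : (p (mate w)).1 = true := by
    cases hx : (p (mate w)).1
    · rw [hx] at hm
      exact absurd rfl hm
    · rfl
  have hpm' : p (mate w) = (true, (p (mate w)).2) := Prod.ext hm1 rfl
  have hfm := hp (mate w) (mate_ne_zero hw0)
  rw [hpm'] at hfm
  have hfw := hp w hw0
  rw [hpw] at hfw
  by_cases hdir : H (mate w) w
  · have h2 := hf _ _ hdir
    rw [hfm, hfw] at h2
    change decide (H (mate w) w) = false at h2
    simp [hdir] at h2
  · have hdir' : H w (mate w) := by
      rcases (hH.2 w (mate w)).mp (adj_mate hw0) with h | h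
      · exact h
      · exact absurd h hdir
    have h2 := hf _ _ hdir'
    rw [hfm, hfw] at h2
    change decide (H (mate w) w) = true at h2
    simp [hdir] at h2

/-- The parametrisation of the edges at the hub. -/
def hubData {a : ℕ} (q : Bool × (Fin a → Bool)) : Bool × Fin a → Bool :=
  if q.1 then
    (if q.2 = fun _ => false then fun _ => true else fun p => if p.1 then q.2 p.2 else false)
  else fun p => if p.1 then false else q.2 p.2

/-- The exceptional hub data. -/
def hubExtra {a : ℕ} (i0 : Fin a) : Bool × Fin a → Bool :=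
  fun p => if p = (false, i0) then false else true

lemma hubData_injective {a : ℕ} (i0 : Fin a) : Function.Injective (hubData (a := a)) := by
  rintro ⟨b, f⟩ ⟨b', f'⟩ h
  cases b <;> cases b'
  · congr 1
    funext i
    have := congrFun h (false, i)
    simpa [hubData] using this
  · exfalso
    by_cases hf' : f' = fun _ => false
    · have := congrFun h (true, i0)
      simp [hubData, hf'] at this
    · apply hf'
      funext i
      have := congrFun h (true, i)
      simpa [hubData, hf'] using this.symm
  · exfalso
    by_cases hf : f = fun _ => false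
    · have := congrFun h (true, i0)
      simp [hubData, hf] at this
    · apply hf
      funext i
      have := congrFun h (true, i)
      simpa [hubData, hf] using this
  · by_cases hf : f = fun _ => false
    · by_cases hf' : f' = fun _ => false
      · rw [hf, hf']
      · exfalso
        have := congrFun h (false, i0)
        simp [hubData, hf, hf'] at this
    · by_cases hf' : f' = fun _ => false
      · exfalso
        have := congrFun h (false, i0)
        simp [hubData, hf, hf'] at this
      · congr 1
        funext i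
        have := congrFun h (true, i)
        simpa [hubData, hf, hf'] using this

lemma hubData_ne_extra {a : ℕ} {i0 i1 : Fin a} (h01 : i1 ≠ i0) (q : Bool × (Fin a → Bool)) :
    hubData q ≠ hubExtra i0 := by
  rintro h
  obtain ⟨b, f⟩ := q
  cases b
  · have := congrFun h (true, i0)
    simp [hubData, hubExtra] at this
  · by_cases hf : f = fun _ => false
    · have := congrFun h (false, i0)
      simp [hubData, hubExtra, hf] at this
    · have := congrFun h (false, i1)
      simp [hubData, hubExtra, hf, h01] at this

lemma free_hubData {a : ℕ} {H : Fin 5 → Fin 5 → Prop} (hH : IsOrientation bowtie H)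
    (h3 : Set.ncard {u | H u 0} = 3) (q : Bool × (Fin a → Bool)) (t : Fin a → Fin a → Bool) :
    ¬ ContainsCopy (ori (hubData q) t) H := by
  obtain ⟨b, f⟩ := q
  cases b
  · exact free_of_part hH h3 _ t true (fun i => by simp [hubData])
  · by_cases hf : f = fun _ => false
    · exact free_of_all hH h3 _ t (fun q => by simp [hubData, hf])
    · exact free_of_part hH h3 _ t false (fun i => by simp [hubData, hf])

lemma count_K {a : ℕ} (ha : 2 ≤ a) {H : Fin 5 → Fin 5 → Prop} (hH : IsOrientation bowtie H)
    (h3 : Set.ncard {u | H u 0} = 3) : 2 ^ (a * a + a + 1) < countFree (K a) H := by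
  classical
  have i0 : Fin a := ⟨0, by omega⟩
  obtain ⟨i0, i1, h01⟩ : ∃ i0 i1 : Fin a, i1 ≠ i0 :=
    ⟨⟨0, by omega⟩, ⟨1, by omega⟩, by simp⟩
  obtain ⟨t0, ht0⟩ := exists_extra hH h3 i0 (hubExtra i0) (by
    intro q hq
    by_contra hne
    simp [hubExtra, hne] at hq)
  let F : Option ((Bool × (Fin a → Bool)) × (Fin a → Fin a → Bool)) →
      {D : Option (Bool × Fin a) → Option (Bool × Fin a) → Prop //
        IsOrientation (K a) D ∧ ¬ ContainsCopy D H} := fun x =>
    match x with
    | none => ⟨ori (hubExtra i0) t0, ori_isOrientation _ _, ht0⟩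
    | some y => ⟨ori (hubData y.1) y.2, ori_isOrientation _ _, free_hubData hH h3 _ _⟩
  have hF : Function.Injective F := by
    rintro (_ | ⟨q, t⟩) (_ | ⟨q', t'⟩) h
    · rfl
    · exfalso
      have h1 := congrArg Subtype.val h
      exact hubData_ne_extra h01 q' (ori_injective h1).1.symm
    · exfalso
      have h1 := congrArg Subtype.val h
      exact hubData_ne_extra h01 q (ori_injective h1).1
    · have h1 := congrArg Subtype.val h
      have h2 := ori_injective h1
      have h3 : q = q' := hubData_injective i0 h2.1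
      have h4 : t = t' := h2.2
      rw [h3, h4]
  have hcard := Nat.card_le_card_of_injective F hF
  have hX : Nat.card (Option ((Bool × (Fin a → Bool)) × (Fin a → Fin a → Bool))) =
      2 ^ (a * a + a + 1) + 1 := by
    rw [Nat.card_eq_fintype_card, Fintype.card_option, Fintype.card_prod, Fintype.card_prod,
      Fintype.card_fun, Fintype.card_fun, Fintype.card_fun, Fintype.card_bool, Fintype.card_fin,
      ← pow_mul]
    ring
  unfold countFree
  rw [hX] at hcard
  omega

/-- Transport to `Fin n`. -/
lemma countFree_le_maxFree {V : Type*} {n : ℕ} (e : V ≃ Fin n) (G : SimpleGraph V)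
    (H : Fin 5 → Fin 5 → Prop) : countFree G H ≤ maxFree n H := by
  classical
  let G' : SimpleGraph (Fin n) := G.comap e.symm
  have h1 : countFree G H ≤ countFree G' H := by
    unfold countFree
    refine Nat.card_le_card_of_injective
      (fun D => ⟨fun u v => D.1 (e.symm u) (e.symm v), ?_, ?_⟩) ?_
    · refine ⟨fun u v h => D.2.1.1 _ _ h, fun u v => D.2.1.2 _ _⟩
    · rintro ⟨f, hf⟩
      exact D.2.2 ⟨f.trans e.symm.toEmbedding, fun u v h => hf u v h⟩
    · rintro ⟨D, hD⟩ ⟨D', hD'⟩ h
      have h2 := congrArg Subtype.val h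
      apply Subtype.ext
      funext u v
      have h3 := congrFun (congrFun h2 (e u)) (e v)
      simpa using h3
  refine h1.trans (le_csSup (Set.finite_range _).bddAbove ⟨G', rfl⟩)

lemma card_V (a : ℕ) : Fintype.card (Option (Bool × Fin a)) = 2 * a + 1 := by
  simp

lemma main_in {a : ℕ} (ha : 2 ≤ a) {H : Fin 5 → Fin 5 → Prop} (hH : IsOrientation bowtie H)
    (h3 : Set.ncard {u | H u 0} = 3) :
    2 ^ extremalNumber (2 * a + 1) bowtie < maxFree (2 * a + 1) H := by
  have h1 := extremalNumber_bowtie_le (2 * a + 1) (by omega)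
  have h2 : (2 * a + 1) ^ 2 / 4 = a * a + a := by
    rw [show (2 * a + 1) ^ 2 = 1 + (a * a + a) * 4 by ring,
      Nat.add_mul_div_right _ _ (by norm_num)]
    simp
  rw [h2] at h1
  calc 2 ^ extremalNumber (2 * a + 1) bowtie ≤ 2 ^ (a * a + a + 1) :=
        Nat.pow_le_pow_right (by norm_num) h1
    _ < countFree (K a) H := count_K ha hH h3
    _ ≤ maxFree (2 * a + 1) H :=
        countFree_le_maxFree (Fintype.equivFinOfCardEq (card_V a)) _ _

lemma maxFree_swap (n : ℕ) (H : Fin 5 → Fin 5 → Prop) :
    maxFree n (fun u v => H v u) = maxFree n H := by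
  unfold maxFree
  congr 2
  funext G
  unfold countFree
  refine Nat.card_congr
    { toFun := fun D => ⟨fun u v => D.1 v u, ?_, ?_⟩
      invFun := fun D => ⟨fun u v => D.1 v u, ?_, ?_⟩
      left_inv := fun D => rfl
      right_inv := fun D => rfl }
  · exact ⟨fun u v h => D.2.1.1 _ _ h, fun u v => (D.2.1.2 u v).trans or_comm⟩
  · rintro ⟨f, hf⟩
    exact D.2.2 ⟨f, fun u v h => hf v u h⟩
  · exact ⟨fun u v h => D.2.1.1 _ _ h, fun u v => (D.2.1.2 u v).trans or_comm⟩
  · rintro ⟨f, hf⟩
    exact D.2.2 ⟨f, fun u v h => hf v u h⟩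

/-- For every orientation `H` of the bowtie (center `0`) in which exactly three of the four
edges at the center point toward the center, or exactly three point away from it, and every odd
`n ≥ 5`, some graph on `n` vertices has more than `2 ^ ex(n, bowtie)` `H`-free orientations. -/
theorem result (H : Fin 5 → Fin 5 → Prop) (hH : IsOrientation bowtie H)
    (h3 : Set.ncard {u | H u 0} = 3 ∨ Set.ncard {u | H 0 u} = 3) (n : ℕ) (hn : 5 ≤ n)
    (hodd : Odd n) : 2 ^ extremalNumber n bowtie < maxFree n H := by
  obtain ⟨a, rfl⟩ := hodd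
  have ha : 2 ≤ a := by omega
  rcases h3 with h3 | h3
  · exact main_in ha hH h3
  · rw [← maxFree_swap]
    refine main_in ha ⟨fun u v h => hH.1 _ _ h, fun u v => (hH.2 u v).trans or_comm⟩ h3

end Pool.Agent.Results.MP_db21b4_co.OddCounterexample
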